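import Pool.Agent.H470D4.EndAll
import Pool.Agent.H470D4.Star

set_option autoImplicit false

namespace Pool.Agent.Results.MP_d500f7_co.DeltaAllUpper

open Filter

/-- The discrepancy function `D(α) = #{n : u_n ∈ [0,α_1] × ⋯ × [0,α_k]} - N α_1 ⋯ α_k`. -/
noncomputable def discFn {N k : ℕ} (u : Fin N → Fin k → ℝ) (α : Fin k → ℝ) : ℝ :=
  ({n : Fin N | ∀ i, 0 ≤ u n i ∧ u n i ≤ α i}.ncard : ℝ) - N * ∏ i, α i

/-- `‖D‖_∞ = sup_α |D(α)|`, over `α ∈ [0,1)^k`. -/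
noncomputable def supNorm {N k : ℕ} (u : Fin N → Fin k → ℝ) : ℝ :=
  ⨆ α : {α : Fin k → ℝ // ∀ i, α i ∈ Set.Ico (0:ℝ) 1}, |discFn u α.1|

/-- `Δ_k(N)`: the infimum of `‖D‖_∞` over all `u_1, …, u_N ∈ [0,1)^k`. -/
noncomputable def Delta (k N : ℕ) : ℝ :=
  ⨅ u : {u : Fin N → Fin k → ℝ // ∀ n i, u n i ∈ Set.Ico (0:ℝ) 1}, supNorm u.1

/-- For every `k ≥ 3`, `Δ_k(N) ≤ C_k (log N)^{k-1} / (log log N)^{k-1}` for all `N ≥ 3`. -/
theorem upper : ∀ k : ℕ, 3 ≤ k → ∃ C : ℝ, 0 < C ∧ ∀ N : ℕ, 3 ≤ N →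
    Delta k N ≤ C * (Real.log N) ^ (k - 1) / (Real.log (Real.log N)) ^ (k - 1) := by
  classical
  intro k hk
  obtain ⟨n, rfl⟩ : ∃ n, k = n + 3 := ⟨k - 3, by omega⟩
  obtain ⟨C, hC, hfin⟩ := H470D4.closed_all_of n (H470D4.star_all n)
  refine ⟨C, hC, ?_⟩
  intro m hm
  obtain ⟨ξ, hξ, hb⟩ := hfin m hm
  have hmem : ∀ μ i, ξ μ i ∈ Set.Ico (0:ℝ) 1 := fun μ j => ⟨(hξ μ j).1, (hξ μ j).2⟩
  have hbdd : BddBelow (Set.range (fun u : {u : Fin m → Fin (n+3) → ℝ //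
      ∀ n i, u n i ∈ Set.Ico (0:ℝ) 1} => supNorm u.1)) := by
    refine ⟨0, ?_⟩
    rintro _ ⟨u, rfl⟩
    exact Real.iSup_nonneg (fun α => abs_nonneg _)
  refine (ciInf_le hbdd ⟨ξ, hmem⟩).trans ?_
  unfold supNorm
  have : Nonempty {α : Fin (n+3) → ℝ // ∀ i, α i ∈ Set.Ico (0:ℝ) 1} :=
    ⟨⟨fun _ => 0, fun _ => ⟨le_rfl, zero_lt_one⟩⟩⟩
  apply ciSup_le
  rintro ⟨α, hα⟩
  have h1 := hb α (fun j => (hα j).1) (fun j => (hα j).2.le)
    (Finset.univ.filter (fun μ => ∀ j, ξ μ j ≤ α j)) (fun μ => by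
      rw [Finset.mem_filter]
      exact ⟨fun h => h.2, fun h => ⟨Finset.mem_univ _, h⟩⟩)
  have h2 : (({n : Fin m | ∀ i, 0 ≤ ξ n i ∧ ξ n i ≤ α i}.ncard : ℕ) : ℝ) =
      ((Finset.univ.filter (fun μ => ∀ j, ξ μ j ≤ α j)).card : ℝ) := by
    rw [← Set.ncard_coe_finset]
    congr 2
    ext μ
    simp only [Set.mem_ofPred_eq, Finset.coe_filter, Finset.mem_univ, true_and]
    exact forall_congr' fun i => ⟨fun h => h.2, fun h => ⟨(hξ μ i).1, h⟩⟩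
  unfold discFn
  rw [h2]
  refine h1.trans (le_of_eq ?_)
  rw [show n + 3 - 1 = n + 2 by omega, div_pow, mul_div_assoc]

/-- For every `k ≥ 3`: `Δ_k(N) ≤ C_k (log N)^{k-1} / (log log N)^{k-1}` for all `N ≥ 3`; hence the
conjectured lower bound `Δ_k(N) ≥ c_k (log N)^{k-1}` is false for every `k ≥ 3`, already for a
sequence of `N` (indeed `Δ_k(N) < c (log N)^{k-1}` for every `c > 0` and all large `N`). -/
theorem result : ∀ k : ℕ, 3 ≤ k →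
    (∃ C : ℝ, 0 < C ∧ ∀ N : ℕ, 3 ≤ N →
      Delta k N ≤ C * (Real.log N) ^ (k - 1) / (Real.log (Real.log N)) ^ (k - 1)) ∧
    (∀ c : ℝ, 0 < c → ∀ᶠ N : ℕ in atTop, Delta k N < c * (Real.log N) ^ (k - 1)) ∧
    ¬ ∃ c : ℝ, 0 < c ∧ ∀ N : ℕ, 2 ≤ N → c * (Real.log N) ^ (k - 1) ≤ Delta k N := by
  intro k hk
  obtain ⟨C, hC, h⟩ := upper k hk
  have hev : ∀ c : ℝ, 0 < c → ∀ᶠ N : ℕ in atTop, Delta k N < c * (Real.log N) ^ (k - 1) := by
    intro c hc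
    have t1 : Tendsto (fun N : ℕ => Real.log (N:ℝ)) atTop atTop :=
      Real.tendsto_log_atTop.comp tendsto_natCast_atTop_atTop
    have t2 : Tendsto (fun N : ℕ => Real.log (Real.log (N:ℝ))) atTop atTop :=
      Real.tendsto_log_atTop.comp t1
    have t3 : Tendsto (fun N : ℕ => C / (Real.log (Real.log (N:ℝ))) ^ (k - 1)) atTop (nhds 0) := by
      apply Tendsto.div_atTop tendsto_const_nhds
      exact (tendsto_pow_atTop (by omega)).comp t2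
    have e1 := t3.eventually (gt_mem_nhds hc)
    have e2 := t1.eventually (eventually_gt_atTop 1)
    filter_upwards [e1, e2, eventually_ge_atTop 3] with m a1 a2 a3
    have hl0 : 0 < Real.log (m:ℝ) := by linarith
    refine lt_of_le_of_lt (h m a3) ?_
    have hpos : 0 < (Real.log (m:ℝ)) ^ (k - 1) := by positivity
    calc C * (Real.log m) ^ (k - 1) / (Real.log (Real.log m)) ^ (k - 1)
        = (C / (Real.log (Real.log (m:ℝ))) ^ (k - 1)) * (Real.log (m:ℝ)) ^ (k - 1) := by ring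
      _ < c * (Real.log (m:ℝ)) ^ (k - 1) := mul_lt_mul_of_pos_right a1 hpos
  refine ⟨⟨C, hC, h⟩, hev, ?_⟩
  rintro ⟨c, hc, hcN⟩
  obtain ⟨N, h1, h2⟩ := ((hev c hc).and (eventually_ge_atTop 2)).exists
  exact absurd (hcN N h2) (not_le.2 h1)

end Pool.Agent.Results.MP_d500f7_co.DeltaAllUpper
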