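import Pool.Agent.H935R2.PS.Final

set_option autoImplicit false

namespace Pool.Agent.Results.MP_d500f7_co.DeltaThreePower

/-- The discrepancy function `D(α) = #{n : u_n ∈ [0,α_1] × ⋯ × [0,α_k]} - N α_1 ⋯ α_k`. -/
noncomputable def discFn {N k : ℕ} (u : Fin N → Fin k → ℝ) (α : Fin k → ℝ) : ℝ :=
  ({n : Fin N | ∀ i, 0 ≤ u n i ∧ u n i ≤ α i}.ncard : ℝ) - N * ∏ i, α i

/-- `‖D‖_∞ = sup_α |D(α)|`, over `α ∈ [0,1)^k`. -/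
noncomputable def supNorm {N k : ℕ} (u : Fin N → Fin k → ℝ) : ℝ :=
  ⨆ α : {α : Fin k → ℝ // ∀ i, α i ∈ Set.Ico (0:ℝ) 1}, |discFn u α.1|

/-- `Δ_k(N)`: the infimum of `‖D‖_∞` over all `u_1, …, u_N ∈ [0,1)^k`. -/
noncomputable def Delta (k N : ℕ) : ℝ :=
  ⨅ u : {u : Fin N → Fin k → ℝ // ∀ n i, u n i ∈ Set.Ico (0:ℝ) 1}, supNorm u.1

/-- `Δ_3(N) ≤ C (log N)^(2 - 1/800)` for all `N ≥ 3`: a power saving in the upper bound. -/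
theorem result : ∃ C : ℝ, 0 < C ∧ ∀ N : ℕ, 3 ≤ N →
    Delta 3 N ≤ C * (Real.log N) ^ ((2:ℝ) - 1 / 800) := by
  classical
  obtain ⟨C, hC, hfin⟩ := H935R2.PS.Final.star_closed
  refine ⟨C, hC, ?_⟩
  intro m hm
  obtain ⟨ξ, hξ, hb⟩ := hfin m hm
  have hmem : ∀ μ i, ξ μ i ∈ Set.Ico (0:ℝ) 1 := fun μ j => ⟨(hξ μ j).1, (hξ μ j).2⟩
  have hbdd : BddBelow (Set.range (fun u : {u : Fin m → Fin 3 → ℝ //
      ∀ n i, u n i ∈ Set.Ico (0:ℝ) 1} => supNorm u.1)) := by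
    refine ⟨0, ?_⟩
    rintro _ ⟨u, rfl⟩
    exact Real.iSup_nonneg (fun α => abs_nonneg _)
  refine (ciInf_le hbdd ⟨ξ, hmem⟩).trans ?_
  unfold supNorm
  have : Nonempty {α : Fin 3 → ℝ // ∀ i, α i ∈ Set.Ico (0:ℝ) 1} :=
    ⟨⟨fun _ => 0, fun _ => ⟨le_rfl, zero_lt_one⟩⟩⟩
  apply ciSup_le
  rintro ⟨α, hα⟩
  have h1 := hb α (fun j => (hα j).1) (fun j => (hα j).2.le)
    (Finset.univ.filter (fun μ => ∀ j, ξ μ j ≤ α j)) (fun μ => by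
      rw [Finset.mem_filter]
      exact ⟨fun h => h.2, fun h => ⟨Finset.mem_univ _, h⟩⟩)
  have h2 : (({n : Fin m | ∀ i, 0 ≤ ξ n i ∧ ξ n i ≤ α i}.ncard : ℕ) : ℝ) =
      ((Finset.univ.filter (fun μ => ∀ j, ξ μ j ≤ α j)).card : ℝ) := by
    rw [← Set.ncard_coe_finset]
    congr 2
    ext μ
    simp only [Set.mem_ofPred_eq, Finset.coe_filter, Finset.mem_univ, true_and]
    exact forall_congr' fun i => ⟨fun h => h.2, fun h => ⟨(hξ μ i).1, h⟩⟩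
  unfold discFn
  rw [h2]
  exact h1

end Pool.Agent.Results.MP_d500f7_co.DeltaThreePower
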